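import Pool.Agent.Helper99.SC.Topo

/-!
# The cycle of the graph (module SC6 of project SC)
-/

set_option autoImplicit false

namespace Pool.Agent.Helper68.SC.Ring

open Equiv Pool.Agent.Helper99.SC

/-- What adjacency in the slot graph says about the numbers of the two vertices. -/
def Near (n i j : ℕ) : Prop :=
  i + 1 = j ∨ j + 1 = i ∨ (i + 1 = n ∧ j = 0) ∨ (j + 1 = n ∧ i = 0) ∨ (i % 4 = 2 ∧ j % 4 = 2)

theorem near_of_rel {n i j : ℕ} (hi : i < n) (h : (i + 1) % n = j) :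
    i + 1 = j ∨ (i + 1 = n ∧ j = 0) := by
  rcases Nat.lt_or_ge (i + 1) n with h1 | h1
  · rw [Nat.mod_eq_of_lt h1] at h
    exact Or.inl h
  · have h2 : i + 1 = n := by omega
    rw [h2, Nat.mod_self] at h
    exact Or.inr ⟨h2, h.symm⟩

theorem near_of_adj {Q : ℕ} {h : ℕ → ℕ → Prop} {i j : Fin (4 * Q)}
    (hij : (slotGraph Q h).Adj i j) : Near (4 * Q) i.val j.val ∧ i.val ≠ j.val := by
  have h0 := (SimpleGraph.fromRel_adj _ i j).1 hij
  obtain ⟨hne, h1⟩ := h0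
  refine ⟨?_, fun h2 => hne (Fin.ext h2)⟩
  unfold Near
  rcases h1 with (h1 | ⟨a, b, -, h2, h3⟩) | (h1 | ⟨a, b, -, h2, h3⟩)
  · rcases near_of_rel i.isLt h1 with h2 | h2
    · exact Or.inl h2
    · exact Or.inr (Or.inr (Or.inl h2))
  · omega
  · rcases near_of_rel j.isLt h1 with h2 | h2
    · exact Or.inr (Or.inl h2)
    · exact Or.inr (Or.inr (Or.inr (Or.inl h2)))
  · omega

theorem splice {V : Type} (T : Drawing V) {u v : V} {d : T.Dart} (h1 : T.From u d)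
    (h2 : T.To d v) : T.Joins u v := by
  obtain ⟨d₀, h3, h4⟩ := h1
  obtain ⟨e, h5, h6⟩ := h2
  exact ⟨d₀, e, h3, h4.trans h5, h6⟩

theorem no_triangle {n u v x : ℕ} (hn : 8 ≤ n) (h4 : n % 4 = 0) (hu : u < n) (hv : v < n)
    (hx : x < n) (huv : u + 1 = v ∨ (u + 1 = n ∧ v = 0)) (h1 : Near n x u) (h1' : x ≠ u)
    (h2 : Near n x v) (h2' : x ≠ v) : False := by
  unfold Near at h1 h2
  omega

theorem no_square {n u v x y : ℕ} (hn : 8 ≤ n) (h4 : n % 4 = 0) (hu : u < n) (hv : v < n)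
    (hx : x < n) (hy : y < n) (huv : u + 1 = v ∨ (u + 1 = n ∧ v = 0)) (hxu : x ≠ u) (hyv : y ≠ v)
    (h1 : Near n u y) (h1' : u ≠ y) (h2 : Near n x v) (h2' : x ≠ v) (h3 : Near n x y)
    (h3' : x ≠ y) : False := by
  unfold Near at h1 h2 h3
  omega

/-- MODULE SC6 (the cycle of the graph). -/
theorem sc_ring : M_ring := by
  intro Q h hQ2 hB T hT hQ
  have hval : ∀ k : ℕ, ((⟨k % (4 * Q), Nat.mod_lt _ hQ⟩ : Fin (4 * Q))).val = k % (4 * Q) :=
    fun _ => rfl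
  have hnext : ∀ k : ℕ, k % (4 * Q) + 1 = (k + 1) % (4 * Q) ∨
      (k % (4 * Q) + 1 = 4 * Q ∧ (k + 1) % (4 * Q) = 0) := by
    intro k
    apply near_of_rel (Nat.mod_lt _ hQ)
    rw [Nat.mod_add_mod]
  have hadj : ∀ k : ℕ, (slotGraph Q h).Adj ⟨k % (4 * Q), Nat.mod_lt _ hQ⟩
      ⟨(k + 1) % (4 * Q), Nat.mod_lt _ hQ⟩ := by
    intro k
    refine (SimpleGraph.fromRel_adj _ _ _).2 ⟨?_, Or.inl (Or.inl ?_)⟩
    · intro h1
      have h2 := congrArg Fin.val h1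
      simp only at h2
      rcases hnext k with h3 | h3 <;> omega
    · show (k % (4 * Q) + 1) % (4 * Q) = (k + 1) % (4 * Q)
      rw [Nat.mod_add_mod]
  refine ⟨?_, ?_, ?_, ?_⟩
  · intro k
    apply Fin.ext
    show (k + 4 * Q) % (4 * Q) = k % (4 * Q)
    rw [Nat.add_mod_right]
  · intro i j hi hj hij
    have h1 := congrArg Fin.val hij
    simp only [Nat.mod_eq_of_lt hi, Nat.mod_eq_of_lt hj] at h1
    exact h1
  · intro k
    have h1 := hadj k
    exact (hT _ _ h1.ne).1 h1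
  · intro k x y d hxy hd1 hd2
    by_contra hcon
    push_neg at hcon
    obtain ⟨hx, hy, hc⟩ := hcon
    have hxy' : (slotGraph Q h).Adj x y := (hT _ _ hxy).2 (splice T hd2.1 hd2.2)
    have h1 : (⟨k % (4 * Q), Nat.mod_lt _ hQ⟩ : Fin (4 * Q)) ≠ y →
        (slotGraph Q h).Adj ⟨k % (4 * Q), Nat.mod_lt _ hQ⟩ y := fun h2 =>
      (hT _ _ h2).2 (splice T hd1.1 hd2.2)
    have h2 : x ≠ (⟨(k + 1) % (4 * Q), Nat.mod_lt _ hQ⟩ : Fin (4 * Q)) →
        (slotGraph Q h).Adj x ⟨(k + 1) % (4 * Q), Nat.mod_lt _ hQ⟩ := fun h3 =>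
      (hT _ _ h3).2 (splice T hd2.1 hd1.2)
    have hn8 : 8 ≤ 4 * Q := by omega
    have hn4 : (4 * Q) % 4 = 0 := by omega
    have huv := hnext k
    have hul : k % (4 * Q) < 4 * Q := Nat.mod_lt _ hQ
    have hvl : (k + 1) % (4 * Q) < 4 * Q := Nat.mod_lt _ hQ
    by_cases hyu : (⟨k % (4 * Q), Nat.mod_lt _ hQ⟩ : Fin (4 * Q)) = y
    · have hxv : x ≠ (⟨(k + 1) % (4 * Q), Nat.mod_lt _ hQ⟩ : Fin (4 * Q)) := fun h3 =>
        hc h3 hyu.symm
      have h3 := near_of_adj (h2 hxv)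
      have h4 := near_of_adj hxy'
      rw [← hyu] at h4
      exact no_triangle hn8 hn4 hul hvl x.isLt huv h4.1 h4.2 h3.1 h3.2
    · by_cases hxv : x = (⟨(k + 1) % (4 * Q), Nat.mod_lt _ hQ⟩ : Fin (4 * Q))
      · have h3 := near_of_adj (h1 hyu).symm
        have h4 := near_of_adj hxy'.symm
        rw [hxv] at h4
        exact no_triangle hn8 hn4 hul hvl y.isLt huv h3.1 h3.2 h4.1 h4.2
      · have h3 := near_of_adj (h1 hyu)
        have h4 := near_of_adj (h2 hxv)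
        have h5 := near_of_adj hxy'
        refine no_square hn8 hn4 hul hvl x.isLt y.isLt huv ?_ ?_ h3.1 h3.2 h4.1 h4.2 h5.1 h5.2
        · exact fun h6 => hx (Fin.ext h6)
        · exact fun h6 => hy (Fin.ext h6)

end Pool.Agent.Helper68.SC.Ring
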