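import Pool.Agent.Helper99.SC.Basic

/-!
# Potentials on the side of the cycle which their chain avoids (modules SC5a and SC5b)
-/

set_option autoImplicit false

namespace Pool.Agent.Helper68.SC.Side

open Relation Equiv Pool.Agent.Helper99.SC

variable {V : Type} {T : Drawing V}

/-- the vertices of the cycle are determined modulo `n` -/
theorem ring_mod {n : ℕ} {c : ℕ → V} (R : T.Ring n c) (hn : 0 < n) {i j : ℕ} (h : c i = c j) :
    i % n = j % n := by
  have key : ∀ i : ℕ, c (i % n) = c i := by
    intro i
    have h1 : ∀ m r : ℕ, c (r + m * n) = c r := by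
      intro m
      induction m with
      | zero => intro r; simp
      | succ m ih =>
        intro r
        have h2 : r + (m + 1) * n = (r + m * n) + n := by ring
        rw [h2, R.per, ih]
    have h2 := h1 (i / n) (i % n)
    rw [mul_comm, Nat.mod_add_div] at h2
    exact h2.symm
  exact R.inj _ _ (Nat.mod_lt _ hn) (Nat.mod_lt _ hn) (by rw [key, key, h])

theorem ring_ne {n : ℕ} {c : ℕ → V} (R : T.Ring n c) {i j : ℕ} (h1 : i < j) (h2 : j < i + n) :
    c i ≠ c j := by
  intro h
  have hn : 0 < n := by omega
  have h3 := ring_mod R hn h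
  have h4 : (j - i) % n = 0 := (Nat.modEq_iff_dvd' h1.le).1 h3 |> Nat.mod_eq_zero_of_dvd
  rw [Nat.mod_eq_of_lt (by omega)] at h4
  omega

/-- a dart of a walk which starts at a vertex starts at the first vertex of the walk -/
theorem vertex_of_mem {u v : V} {l : List T.Dart} (h : T.IsWalk u v l) {x : V} {d : T.Dart}
    (hd : d ∈ l) (hx : T.base d = Sum.inl x) : x = u := by
  obtain ⟨hl, h1, h2, h3⟩ := h
  obtain ⟨l₁, l₂, rfl⟩ := List.append_of_mem hd
  rcases List.eq_nil_or_concat l₁ with rfl | ⟨l₁', e, rfl⟩
  · simp at h1
    rw [hx] at h1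
    exact Sum.inl.inj h1
  · rw [List.isChain_append] at h3
    obtain ⟨j, _, a2, _⟩ := h3.2.2 e (by simp) d (by simp)
    rw [hx] at a2
    exact absurd a2 (by simp)

/-- a potential is constant along a walk at whose points its chain vanishes -/
theorem chain_const {z χ : T.Dart → ZMod 2} (h : IsPot T.rot T.rev z χ) {l : List T.Dart}
    (hl : l ≠ []) (hc : l.IsChain T.Smooth)
    (hz : ∀ d ∈ l, ∀ e, T.base e = T.base d → z e = 0) :
    χ (l.getLast hl) = χ (l.head hl) ∧ χ (T.rev (l.getLast hl)) = χ (l.head hl) := by
  induction l with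
  | nil => exact absurd rfl hl
  | cons a l ih =>
    cases l with
    | nil =>
      refine ⟨rfl, ?_⟩
      simp only [List.getLast_singleton, List.head_cons]
      rw [h.1 a, hz a (by simp) a rfl, add_zero]
    | cons b l =>
      rw [List.isChain_cons_cons] at hc
      have h1 := ih (by simp) hc.2 (fun d hd => hz d (List.mem_cons_of_mem _ hd))
      simp only [List.head_cons] at h1 ⊢
      rw [List.getLast_cons (by simp)]
      have h2 : χ b = χ a := by
        have h3 : χ (T.rev a) = χ b :=
          T.pot_const h (p := T.base b) (fun e he => hz b (by simp) e he) hc.1.base rfl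
        rw [← h3, h.1 a, hz a (by simp) a rfl, add_zero]
      rw [← h2]
      exact h1

/-- the two chains do not meet at a junction -/
theorem no_meet {n : ℕ} {c : ℕ → V} (R : T.Ring n c) {k : ℕ} {x y : V} (hxy : x ≠ y)
    (hx : x ≠ c k) (hx' : x ≠ c (k + 1)) (hy : y ≠ c k) (hy' : y ≠ c (k + 1))
    {wk l : List T.Dart} (hw : T.IsWalk (c k) (c (k + 1)) wk) (hl : T.IsWalk x y l) {jn : T.J}
    {d e : T.Dart} (hd : d ∈ wk) (hdj : T.base d = Sum.inr jn) (hej : T.base e = Sum.inr jn) :
    T.cnt l e = 0 := by
  by_contra he
  have h1 := hw.stem_of_mem hd (Or.inl hdj)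
  have h2 := hl.stem_of_cnt he hej
  have h3 : T.On (c k) (c (k + 1)) (T.stem jn) ∨ T.On (c (k + 1)) (c k) (T.stem jn) := by
    rcases h1 with h1 | h1
    · exact Or.inl (hw.on h1)
    · exact Or.inr (T.on_rev.1 (hw.on h1))
  have h4 : T.On x y (T.stem jn) ∨ T.On y x (T.stem jn) := by
    rcases h2 with h2 | h2
    · exact Or.inl (hl.on h2)
    · exact Or.inr (T.on_rev.1 (hl.on h2))
  rcases h3 with h3 | h3 <;> rcases h4 with h4 | h4
  · rcases R.share k x y _ hxy h3 h4 with h | h | h
    · exact hx h
    · exact hy' h
    · exact hx' h.1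
  · rcases R.share k y x _ hxy.symm h3 h4 with h | h | h
    · exact hy h
    · exact hx' h
    · exact hy' h.1
  · rcases R.share' k hxy h3 h4 with h | h | h
    · exact hx' h
    · exact hy h
    · exact hx h.1
  · rcases R.share' k hxy.symm h3 h4 with h | h | h
    · exact hy' h
    · exact hx h
    · exact hy h.1

/-- the chain vanishes at the vertices of the avoided side -/
theorem ych_vertex {n : ℕ} {c : ℕ → V} {w : ℕ → List T.Dart} (S : T.Sys n c w) {p q : ℕ}
    (h1 : p + 2 ≤ q) (h2 : q + 2 ≤ p + n) {l : List T.Dart}
    (hl : T.IsWalk (c p) (c q) l ∨ T.IsWalk (c q) (c p) l) {k : ℕ} (hk1 : p < k) (hk2 : k < q)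
    {d : T.Dart} (hd : T.base d = Sum.inl (c k)) : T.ych w l q (p + n) d = 0 := by
  unfold Drawing.ych
  have a1 : T.cnt l d = 0 := by
    by_contra h
    have h3 : c k = c p ∨ c k = c q := by
      rcases hl with hl | hl
      · exact hl.vertex_of_cnt h hd
      · exact (hl.vertex_of_cnt h hd).symm
    rcases h3 with h3 | h3
    · exact ring_ne S.toRing hk1 (by omega) h3.symm
    · exact ring_ne S.toRing hk2 (by omega) h3
  rw [a1, add_zero]
  apply Finset.sum_eq_zero
  intro j hj
  rw [Finset.mem_Ico] at hj
  by_contra h
  rcases (S.walk j).vertex_of_cnt h hd with h3 | h3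
  · exact ring_ne S.toRing (i := k) (j := j) (by omega) (by omega) h3
  · exact ring_ne S.toRing (i := k) (j := j + 1) (by omega) (by omega) h3

/-- MODULE SC5a (a potential is constant on the side of the cycle which its chain avoids). -/
theorem sc_side : M_side := by
  intro V T n c w S p q h1 h2 l hl χ hχ
  -- one step
  have step : ∀ k, p < k → k + 1 < q → ∀ d d', T.base d = Sum.inl (c k) →
      T.base d' = Sum.inl (c (k + 1)) → χ d = χ d' := by
    intro k hk1 hk2 d d' hd hd'
    have hw := S.walk k
    obtain ⟨hne, b1, b2, b3⟩ := id hw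
    have hz : ∀ a ∈ w k, ∀ e, T.base e = T.base a → T.ych w l q (p + n) e = 0 := by
      intro a ha e he
      rcases hb : T.base a with v | jn
      · rw [hb] at he
        rw [vertex_of_mem hw ha hb] at he
        exact ych_vertex S h1 h2 hl hk1 (by omega) he
      · rw [hb] at he
        unfold Drawing.ych
        have a1 : T.cnt l e = 0 := by
          have n1 := ring_ne S.toRing (i := p) (j := k) (by omega) (by omega)
          have n2 := ring_ne S.toRing (i := p) (j := k + 1) (by omega) (by omega)
          have n3 := ring_ne S.toRing (i := k) (j := q) (by omega) (by omega)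
          have n4 := ring_ne S.toRing (i := k + 1) (j := q) (by omega) (by omega)
          have n5 := ring_ne S.toRing (i := p) (j := q) (by omega) (by omega)
          rcases hl with hl | hl
          · exact no_meet S.toRing n5 n1 n2 n3.symm n4.symm hw hl ha hb he
          · exact no_meet S.toRing n5.symm n3.symm n4.symm n1 n2 hw hl ha hb he
        rw [a1, add_zero]
        apply Finset.sum_eq_zero
        intro j hj
        rw [Finset.mem_Ico] at hj
        have n1 := ring_ne S.toRing (i := k) (j := j) (by omega) (by omega)
        have n2 := ring_ne S.toRing (i := k + 1) (j := j) (by omega) (by omega)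
        have n3 := ring_ne S.toRing (i := k) (j := j + 1) (by omega) (by omega)
        have n4 := ring_ne S.toRing (i := k + 1) (j := j + 1) (by omega) (by omega)
        have n5 := ring_ne S.toRing (i := j) (j := j + 1) (by omega) (by omega)
        exact no_meet S.toRing n5 n1.symm n2.symm n3.symm n4.symm hw (S.walk j) ha hb he
    have hcc := (chain_const hχ hne b3 hz).2
    have e1 : χ ((w k).head hne) = χ d :=
      T.pot_const hχ (fun e he => ych_vertex S h1 h2 hl hk1 (by omega) he) b1 hd
    have e2 : χ (T.rev ((w k).getLast hne)) = χ d' :=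
      T.pot_const hχ (fun e he => ych_vertex S h1 h2 hl (by omega) hk2 he) b2 hd'
    rw [← e1, ← hcc, e2]
  have main : ∀ k, p < k → ∀ k', k ≤ k' → k' < q → ∀ d d', T.base d = Sum.inl (c k) →
      T.base d' = Sum.inl (c k') → χ d = χ d' := by
    intro k hk k' hkk'
    induction k', hkk' using Nat.le_induction with
    | base =>
      intro hkq d d' hd hd'
      exact T.pot_const hχ (fun e he => ych_vertex S h1 h2 hl hk hkq he) hd hd'
    | succ m hm ih =>
      intro hmq d d' hd hd'
      obtain ⟨hne, b1, -, -⟩ := S.walk m
      rw [ih (by omega) d _ hd b1]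
      exact step m (by omega) hmq _ _ b1 hd'
  intro k k' d d' hk1 hk2 hk1' hk2' hd hd'
  rcases le_total k k' with h | h
  · exact main k hk1 k' h hk2' d d' hd hd'
  · exact (main k' hk1' k h hk2 d' d hd' hd).symm

/-- MODULE SC5b (a potential is constant on the first part of a crossing edge). -/
theorem sc_half : M_half := by
  intro V T n c w S p q h1 h2 l hl χ hχ x y l' m hx1 hx2 hy1 hy2 hl' hm hCD hdis
  have nxy := ring_ne S.toRing (i := x) (j := y) (by omega) (by omega)
  obtain ⟨l₁, l₂, rfl⟩ := List.append_of_mem hm
  obtain ⟨hne, b1, b2, b3⟩ := id hl'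
  have hsplit := T.chain_split b3
  -- from the members of the first part one reaches `m`
  have hreach : ∀ f ∈ l₁ ++ [m], ReflTransGen T.Smooth f m := by
    intro f hf
    rcases List.mem_append.1 hf with hf | hf
    · exact hsplit.1 f hf
    · rw [List.mem_singleton] at hf
      rw [hf]
  have hsub : ∀ f ∈ l₁ ++ [m], f ∈ l₁ ++ m :: l₂ := by
    intro f hf
    rcases List.mem_append.1 hf with hf | hf
    · exact List.mem_append_left _ hf
    · rw [List.mem_singleton] at hf
      rw [hf]
      simp
  have hmOn := hl'.on hm
  have hz : ∀ a ∈ l₁ ++ [m], ∀ e, T.base e = T.base a → T.ych w l q (p + n) e = 0 := by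
    intro a ha e he
    rcases hb : T.base a with v | jn
    · rw [hb] at he
      rw [vertex_of_mem hl' (hsub a ha) hb] at he
      exact ych_vertex S h1 h2 hl hx1 hx2 he
    · rw [hb] at he
      unfold Drawing.ych
      have a1 : T.cnt l e = 0 := by
        by_contra hne1
        have g1 := hl'.stem_of_mem (hsub a ha) (Or.inl hb)
        have g2 : T.stem jn ∈ l ∨ T.rev (T.stem jn) ∈ l := by
          rcases hl with hl | hl
          · exact hl.stem_of_cnt hne1 he
          · exact hl.stem_of_cnt hne1 he
        rcases g1 with g1 | g1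
        · rcases g2 with g2 | g2
          · exact (hdis _ g1).1 g2
          · exact (hdis _ g1).2 g2
        · rcases g2 with g2 | g2
          · apply (hdis _ g1).2
            rw [T.rev_rev]
            exact g2
          · exact (hdis _ g1).1 g2
      rw [a1, add_zero]
      apply Finset.sum_eq_zero
      intro j hj
      rw [Finset.mem_Ico] at hj
      by_contra hne1
      have g2 := (S.walk j).stem_of_cnt hne1 he
      -- a dart of the first part which is the stem or its reverse
      have g1 : ∃ f ∈ l₁ ++ [m], f = T.stem jn ∨ T.rev f = T.stem jn := by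
        obtain ⟨s, t, hst⟩ := List.append_of_mem ha
        have hch : (l₁ ++ [m]).IsChain T.Smooth := by
          rw [List.isChain_append] at b3 ⊢
          exact ⟨b3.1, by simp, fun x hx y hy => b3.2.2 x hx y (by simpa using hy)⟩
        rcases List.eq_nil_or_concat s with hs | ⟨s', e', hs⟩
        · exfalso
          rw [hs, List.nil_append] at hst
          have hh : (l₁ ++ m :: l₂).head hne = a := by
            have h5 : (l₁ ++ m :: l₂).head? = some a := by
              have h6 : (l₁ ++ [m]).head? = some a := by rw [hst]; simp
              cases l₁ with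
              | nil => simpa using h6
              | cons u l₁ => simpa using h6
            rw [List.head?_eq_some_head hne] at h5
            exact Option.some.inj h5
          rw [hh, hb] at b1
          exact absurd b1 (by simp)
        · rw [hs] at hst
          rw [hst, List.isChain_append] at hch
          have hsm : T.Smooth e' a := hch.2.2 e' (by simp) a (by simp)
          rcases hsm.stem hb with h5 | h5
          · exact ⟨e', by rw [hst]; simp, Or.inr h5⟩
          · exact ⟨a, ha, Or.inl h5⟩
      obtain ⟨f, hf, hfs⟩ := g1
      have hfOn := hl'.on (hsub f hf)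
      have g3 : T.On (c j) (c (j + 1)) f ∨ T.On (c (j + 1)) (c j) f := by
        rcases hfs with hfs | hfs
        · rw [hfs]
          rcases g2 with g2 | g2
          · exact Or.inl ((S.walk j).on g2)
          · exact Or.inr (T.on_rev.1 ((S.walk j).on g2))
        · rw [← hfs] at g2
          rcases g2 with g2 | g2
          · exact Or.inr (T.on_rev.1 ((S.walk j).on g2))
          · rw [T.rev_rev] at g2
            exact Or.inl ((S.walk j).on g2)
      have n1 := ring_ne S.toRing (i := x) (j := j) (by omega) (by omega)
      have n2 := ring_ne S.toRing (i := x) (j := j + 1) (by omega) (by omega)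
      rcases g3 with g3 | g3
      · have h5 : c y = c (j + 1) := by
          rcases S.share j _ _ _ nxy g3 hfOn with h | h | h
          · exact absurd h n1
          · exact h
          · exact absurd h.1 n2
        apply hCD
        refine ⟨j, Or.inl ⟨g3.1.trans (hreach f hf), ?_⟩⟩
        rw [← h5]
        exact hmOn.2
      · have h5 : c y = c j := by
          rcases S.toRing.share' j nxy g3 hfOn with h | h | h
          · exact absurd h n2
          · exact h
          · exact absurd h.1 n1
        apply hCD
        refine ⟨j, Or.inr ⟨g3.1.trans (hreach f hf), ?_⟩⟩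
        rw [← h5]
        exact hmOn.2
  have hch : (l₁ ++ [m]).IsChain T.Smooth := by
    rw [List.isChain_append] at b3 ⊢
    exact ⟨b3.1, by simp, fun x hx y hy => b3.2.2 x hx y (by simpa using hy)⟩
  have hcc := (chain_const hχ (l := l₁ ++ [m]) (by simp) hch hz).1
  refine ⟨hz m (by simp) m rfl, ?_⟩
  intro d hd
  have hlast : (l₁ ++ [m]).getLast (by simp) = m := by simp
  have hhead : (l₁ ++ [m]).head (by simp) = (l₁ ++ m :: l₂).head hne := by
    cases l₁ with
    | nil => simp
    | cons u l₁ => simp
  rw [hlast, hhead] at hcc
  rw [hcc]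
  exact T.pot_const hχ (fun e he => ych_vertex S h1 h2 hl hx1 hx2 he) b1 hd

end Pool.Agent.Helper68.SC.Side
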